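import Pool.Agent.H75.GG.Targets2

/-!
# Row MWR: the special strings are not seen by short instances
-/

set_option autoImplicit false

namespace Pool.Agent.H73.GG

open Finset Filter Pool.Agent.H6.NB Pool.Agent.H70.OQ Pool.Agent.H75.GS Pool.Agent.H75.GG

theorem pst_inj {n : ℕ} {x x' : Xn n} {z z' : Ys n 0} (h : pst n x z = pst n x' z') :
    x = x' ∧ z = z' := by
  unfold pst at h
  have h1 := (List.cons.inj h).2
  have h2 := List.append_inj h1 (by rw [List.length_ofFn, List.length_ofFn])
  exact ⟨List.ofFn_injective h2.1, List.ofFn_injective h2.2⟩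

theorem pst_ne_key {n : ℕ} {x : Xn n} {z : Ys n 0} {s : List Bool} (h : pst n x z = key s) :
    False := by
  unfold pst key at h
  have h1 := (List.cons.inj h).1
  exact Bool.noConfusion h1

section upd

variable {G : Dat} (ω : Cfg G) (n : ℕ) (p : Wn n) (y : Spc G n)

/-- the configuration with the stage `n` replaced -/
noncomputable def up : Cfg G := Function.update ω (.inl n) ((p, y) : Wn n × Spc G n)

theorem cfS_up : cfS (up ω n p y) n = y :=
  congrArg (fun c : Wn n × Spc G n => c.2) (Function.update_self (Sum.inl n) _ ω)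

theorem cfT_up : cfT (up ω n p y) n = p :=
  congrArg (fun c : Wn n × Spc G n => c.1) (Function.update_self (Sum.inl n) _ ω)

theorem cfS_up_ne {m : ℕ} (h : m ≠ n) : cfS (up ω n p y) m = cfS ω m :=
  congrArg (fun c : Wn m × Spc G m => c.2)
    (Function.update_of_ne (fun h' => h (Sum.inl.inj h')) _ ω)

theorem cfT_up_ne {m : ℕ} (h : m ≠ n) : cfT (up ω n p y) m = cfT ω m :=
  congrArg (fun c : Wn m × Spc G m => c.1)
    (Function.update_of_ne (fun h' => h (Sum.inl.inj h')) _ ω)

theorem cfK_up (s : List Bool) : cfK (up ω n p y) s = cfK ω s :=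
  congrArg (fun c : Bool × (Fin (ns s) → VV (qs s) → Bool) => c.1)
    (Function.update_of_ne Sum.inr_ne_inl _ ω)

theorem cfP_up (s : List Bool) : cfP (up ω n p y) s = cfP ω s :=
  congrArg (fun c : Bool × (Fin (ns s) → VV (qs s) → Bool) => c.2)
    (Function.update_of_ne Sum.inr_ne_inl _ ω)

theorem seed_up (hSEE : T_SEE) {w : List Bool} (hw : ¬ ∃ x z, w = pst n x z) :
    seed (up ω n p y) w = seed ω w := by
  obtain ⟨a1, a2, a3, a4, a5⟩ := hSEE G ω
  obtain ⟨b1, b2, b3, b4, b5⟩ := hSEE G (up ω n p y)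
  have key : ((∃ n x z, w = pst n x z) ∨ (∃ s, w = key s) ∨
      ∃ (s : List Bool) (i : Fin (ns s)) (v : VV (qs s)), w = blk s i v.1 (List.ofFn v.2)) →
      seed (up ω n p y) w = seed ω w := by
    rintro (⟨m, x, z, rfl⟩ | ⟨s, rfl⟩ | ⟨s, i, v, rfl⟩)
    · have hm : m ≠ n := by
        rintro rfl
        exact hw ⟨x, z, rfl⟩
      rcases le_or_gt G.n0 m with h | h
      · rw [a1 m x z h, b1 m x z h, cfS_up_ne ω n p y hm, cfT_up_ne ω n p y hm]
      · rw [a2 m x z h, b2 m x z h]
    · rw [a3, b3, cfK_up]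
    · rw [a4, b4, cfP_up]
  by_cases h1 : seed ω w = true
  · exact key (a5 w h1)
  · by_cases h2 : seed (up ω n p y) w = true
    · exact key (b5 w h2)
    · rw [Bool.not_eq_true] at h1 h2
      rw [h1, h2]

end upd

open Classical in
theorem mks_apply (U : Set (List Bool)) (O : List Bool → Bool) (w : List Bool) :
    mks U O w = if w ∈ U then false else O w := rfl

theorem pf_MWR (hLCG : T_LCG) (hSEE : T_SEE) (hBUX : T_BUX) (hORC : T_ORC) (hFMP : T_FMP)
    (_hNST : T_NST) : T_MWR := by
  classical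
  intro G ω n p hacc hn _
  -- the other special strings
  let U : ℕ → Set (List Bool) := fun l =>
    {w | ∃ (m : ℕ) (k : Fin (G.r m)), m ≠ n ∧ G.n0 ≤ m ∧ l < G.H m ∧ w = ust (cfS ω m) k}
  let sT : List Bool → Bool := fun w =>
    if h : ∃ c : Xn n × Ys n 0, w = pst n c.1 c.2 then tT p h.choose else seed ω w
  have hsT : ∀ x z, sT (pst n x z) = tT p (x, z) := by
    intro x z
    have h : ∃ c : Xn n × Ys n 0, pst n x z = pst n c.1 c.2 := ⟨(x, z), rfl⟩
    have h1 : sT (pst n x z) = tT p h.choose := dif_pos h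
    obtain ⟨h2, h3⟩ := pst_inj h.choose_spec
    rw [h1]
    exact congrArg (tT p) (Prod.ext h2.symm h3.symm)
  have hsT' : ∀ w, (¬ ∃ x z, w = pst n x z) → sT w = seed ω w := by
    intro w hw
    exact dif_neg fun ⟨c, hc⟩ => hw ⟨c.1, c.2, hc⟩
  have hU : ∀ l, ∀ w ∈ U l, ∃ (m : ℕ) (x : Xn m) (z : Ys m 0), w = pst m x z := by
    rintro l w ⟨m, k, -, -, -, rfl⟩
    exact ⟨m, _, _, rfl⟩
  have hOTb : Bldg (ign G.acc U) sT (orc (ign G.acc U) sT) :=
    (hORC _ ((hFMP G.acc U hU).1 hacc) sT).1
  set OT := orc (ign G.acc U) sT with hOT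
  have hOTp : ∀ x z, OT (pst n x z) = tT p (x, z) := by
    intro x z
    rw [hOTb (pst n x z), hsT]
    have h1 : ¬ ∃ s, pst n x z = key s ∧ ign G.acc U s OT := fun ⟨s, hs, _⟩ => pst_ne_key hs
    rw [decide_eq_false h1, Bool.xor_false]
  refine ⟨OT, hOTp, ?_⟩
  intro y hy w hw
  change wld (up ω n p y) w = OF OT y univ w
  -- the special strings of length `n`
  let V : Set (List Bool) := {w | ∃ k, w = ust y k}
  set W := wld (up ω n p y) with hW
  have hWb : Bldg (ign G.acc (Spt (up ω n p y))) (seed (up ω n p y)) W :=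
    (hLCG G (up ω n p y) hacc).2.2.2.1
  obtain ⟨b1, -⟩ := hSEE G (up ω n p y)
  have hlab : ∀ k, G.lab n (row y k) = k := fun k => (y k).1.2
  have hlab2 : ∀ k, (y (G.lab n (row y k))).2 = (y k).2 := fun k =>
    congrArg (fun j => (y j).2) (hlab k)
  have hkey : ∀ u ∈ V, ¬ ∃ s, u = key s := by
    rintro u ⟨k, rfl⟩ ⟨s, hs⟩
    exact pst_ne_key hs
  have s1V : ∀ u ∈ V, seed (up ω n p y) u = true := by
    rintro u ⟨k, rfl⟩
    unfold ust
    rw [b1 n _ _ hn, cfS_up, cfT_up]
    unfold tT tb jn jR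
    have h1 : row y k ∈ univ.image (row y) := mem_image.2 ⟨k, mem_univ _, rfl⟩
    simp [h1, hlab2]
  have sTV : ∀ u ∈ V, sT u = false := by
    rintro u ⟨k, rfl⟩
    unfold ust
    rw [hsT]
    unfold tT tb
    simp [hy k]
  have s1n : ∀ u, u ∉ V → seed (up ω n p y) u = sT u := by
    intro u hu
    by_cases h : ∃ x z, u = pst n x z
    · obtain ⟨x, z, rfl⟩ := h
      rw [b1 n _ _ hn, cfS_up, cfT_up, hsT]
      by_cases hx : ∃ k, row y k = x
      · obtain ⟨k, rfl⟩ := hx
        have hz : z ≠ (y k).2 := by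
          rintro rfl
          exact hu ⟨k, rfl⟩
        have h1 : row y k ∈ univ.image (row y) := mem_image.2 ⟨k, mem_univ _, rfl⟩
        unfold tT tb jn jR
        simp [h1, hlab2, hy k, hz]
      · have h1 : x ∉ univ.image (row y) := by
          rw [mem_image]
          rintro ⟨k, -, hk⟩
          exact hx ⟨k, hk⟩
        unfold tT tb jn jR
        simp only [h1, if_false]
    · rw [seed_up ω n p y hSEE h, hsT' u h]
  -- the machines
  let A3 : List Bool → (List Bool → Bool) → Prop := ign G.acc fun l => U l ∪ V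
  let A2 : List Bool → (List Bool → Bool) → Prop := fun s O =>
    if s.length < G.H n then A3 s O else ign G.acc (Spt (up ω n p y)) s W
  have hA3 : LocA A3 := by
    refine (hFMP G.acc (fun l => U l ∪ V) ?_).1 hacc
    rintro l u (hu | ⟨k, rfl⟩)
    · exact hU l u hu
    · exact ⟨n, _, _, rfl⟩
  have hSpt : ∀ l, l < G.H n → Spt (up ω n p y) l = U l ∪ V := by
    intro l hl
    ext u
    constructor
    · rintro ⟨m, k, h1, h2, rfl⟩
      by_cases hm : m = n
      · subst hm
        right
        refine ⟨k, ?_⟩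
        rw [cfS_up]
      · left
        refine ⟨m, k, hm, h1, h2, ?_⟩
        rw [cfS_up_ne ω n p y hm]
    · rintro (⟨m, k, hm, h1, h2, rfl⟩ | ⟨k, rfl⟩)
      · refine ⟨m, k, h1, h2, ?_⟩
        rw [cfS_up_ne ω n p y hm]
      · refine ⟨n, k, hn, hl, ?_⟩
        rw [cfS_up]
  have hO2 : Bldg A2 sT (mks V W) := by
    intro u
    by_cases hu : u ∈ V
    · rw [mks_apply, if_pos hu, sTV u hu]
      have h1 : ¬ ∃ s, u = key s ∧ A2 s (mks V W) := fun ⟨s, hs, _⟩ => hkey u hu ⟨s, hs⟩
      rw [decide_eq_false h1]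
      rfl
    · rw [mks_apply, if_neg hu, hWb u, s1n u hu]
      have h1 : ∀ s, ign G.acc (Spt (up ω n p y)) s W ↔ A2 s (mks V W) := by
        intro s
        by_cases hs : s.length < G.H n
        · have h2 : A2 s (mks V W) = A3 s (mks V W) := if_pos hs
          rw [h2]
          have h3 : mks (U s.length ∪ V) (mks V W) = mks (Spt (up ω n p y) s.length) W := by
            funext v
            rw [hSpt _ hs, mks_apply, mks_apply, mks_apply]
            by_cases hv : v ∈ U s.length ∪ V
            · rw [if_pos hv, if_pos hv]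
            · rw [if_neg hv, if_neg hv, if_neg fun h => hv (Or.inr h)]
          show G.acc s _ ↔ G.acc s _
          rw [h3]
        · have h2 : A2 s (mks V W) = ign G.acc (Spt (up ω n p y)) s W := if_neg hs
          rw [h2]
      have h4 : (∃ s, u = key s ∧ ign G.acc (Spt (up ω n p y)) s W) ↔
          ∃ s, u = key s ∧ A2 s (mks V W) := by
        simp only [h1]
      rw [decide_eq_decide.2 h4]
  have hO3 : Bldg A3 sT OT := by
    intro u
    rw [hOTb u]
    have h3 : ∀ s : List Bool, mks (U s.length ∪ V) OT = mks (U s.length) OT := by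
      intro s
      funext v
      rw [mks_apply, mks_apply]
      by_cases hv : v ∈ V
      · have h5 : OT v = false := by
          obtain ⟨k, rfl⟩ := hv
          unfold ust
          rw [hOTp]
          unfold tT tb
          simp [hy k]
        rw [if_pos (show v ∈ U s.length ∪ V from Or.inr hv), h5, ite_self]
      · by_cases hv' : v ∈ U s.length
        · rw [if_pos (show v ∈ U s.length ∪ V from Or.inl hv'), if_pos hv']
        · rw [if_neg hv', if_neg]
          rintro (h | h)
          · exact hv' h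
          · exact hv h
    have h4 : (∃ s, u = key s ∧ ign G.acc U s OT) ↔ ∃ s, u = key s ∧ A3 s OT := by
      apply exists_congr
      intro s
      apply and_congr_right
      intro _
      show G.acc s _ ↔ G.acc s _
      rw [h3]
    rw [decide_eq_decide.2 h4]
  have hag : ∀ (s : List Bool) O, s.length < G.H n → (A3 s O ↔ A2 s O) := by
    intro s O hs
    have h2 : A2 s O = A3 s O := if_pos hs
    rw [h2]
  have hfin := hBUX A3 A2 sT sT OT (mks V W) (G.H n) hA3 hag hO3 hO2 (fun _ _ => rfl) w hw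
  unfold OF
  by_cases hwV : w ∈ V
  · have h1 : ¬ ∃ s, w = key s ∧ ign G.acc (Spt (up ω n p y)) s W :=
      fun ⟨s, hs, _⟩ => hkey w hwV ⟨s, hs⟩
    rw [hWb w, s1V w hwV, decide_eq_false h1]
    obtain ⟨k, hk⟩ := hwV
    rw [decide_eq_true ⟨k, mem_univ _, hk⟩, Bool.or_true]
    rfl
  · rw [mks_apply, if_neg hwV] at hfin
    rw [← hfin]
    have h1 : ¬ ∃ k ∈ (univ : Finset (Fin (G.r n))), w = ust y k :=
      fun ⟨k, _, hk⟩ => hwV ⟨k, hk⟩
    rw [decide_eq_false h1, Bool.or_false]

end Pool.Agent.H73.GG
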